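import Pool.Agent.Y999.ST.Stm

/-!
# Independent exponential clocks are almost surely good (job ST-AS of helper999)
-/

namespace Pool.Agent.Y496.ST

open MeasureTheory ProbabilityTheory Set Filter
open scoped ENNReal
open Pool.Agent.Y999.ST

/-- the exponential law gives positive mass to every half-line -/
theorem exp_Ioi_ne_zero (t : ℝ) : expMeasure 1 (Ioi t) ≠ 0 := by
  have hP : IsProbabilityMeasure (expMeasure 1) := isProbabilityMeasure_expMeasure one_pos
  intro h
  have h1 : expMeasure 1 (Iic t) = 1 := by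
    have h2 := prob_compl_eq_one_sub (μ := expMeasure 1) (s := Ioi t) measurableSet_Ioi
    rw [h, compl_Ioi, tsub_zero] at h2
    exact h2
  rw [← ofReal_cdf, cdf_expMeasure_eq one_pos] at h1
  split_ifs at h1 with ht
  · rw [ENNReal.ofReal_eq_one] at h1
    have := Real.exp_pos (-(1 * t))
    linarith
  · simp at h1

theorem exp_Iic_zero : expMeasure 1 (Iic 0) = 0 := by
  have hP : IsProbabilityMeasure (expMeasure 1) := isProbabilityMeasure_expMeasure one_pos
  rw [← ofReal_cdf, cdf_expMeasure_eq one_pos]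
  simp

theorem exp_singleton (x : ℝ) : expMeasure 1 {x} = 0 := by
  have h1 : expMeasure 1 ≪ (volume : Measure ℝ) := withDensity_absolutelyContinuous _ _
  exact h1 (by simp)

section

variable {Ω : Type*} [MeasurableSpace Ω] {P : Measure Ω} [IsProbabilityMeasure P]

/-- second Borel-Cantelli lemma -/
theorem bc (x : ℕ → Ω → ℝ) (hm : ∀ i, Measurable (x i)) (hl : ∀ i, P.map (x i) = expMeasure 1)
    (hi : iIndepFun x P) (t : ℝ) : ∀ᵐ ω ∂P, ∃ᶠ i in atTop, t < x i ω := by
  set s : ℕ → Set Ω := fun i => x i ⁻¹' Ioi t with hs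
  have hsm : ∀ i, MeasurableSet (s i) := fun i => (hm i) measurableSet_Ioi
  have hind : iIndepSet s P := by
    rw [iIndepSet_iff_meas_biInter hsm]
    intro S
    exact hi.measure_inter_preimage_eq_mul S (sets := fun _ => Ioi t) fun _ _ => measurableSet_Ioi
  have hp : ∀ i, P (s i) = expMeasure 1 (Ioi t) := by
    intro i
    rw [← hl i, Measure.map_apply (hm i) measurableSet_Ioi]
  have hsum : (∑' i, P (s i)) = ∞ := by
    rw [tsum_congr hp]
    exact ENNReal.tsum_const_eq_top_of_ne_zero (exp_Ioi_ne_zero t)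
  have h1 := measure_limsup_eq_one hsm hind hsum
  have hms : MeasurableSet (limsup s atTop) := MeasurableSet.measurableSet_limsup hsm
  have h2 : ∀ᵐ ω ∂P, ω ∈ limsup s atTop := by
    rw [ae_iff]
    exact (prob_compl_eq_zero_iff hms).2 h1
  filter_upwards [h2] with ω hω
  rw [mem_limsup_iff_frequently_mem] at hω
  exact hω

/-- two sums of different clocks do not agree -/
theorem ne_ae (gap : ℤ → ℕ → Ω → ℝ) (hm : ∀ k n, Measurable (gap k n))
    (hl : ∀ k n, P.map (gap k n) = expMeasure 1)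
    (hi : iIndepFun (fun p : ℤ × ℕ => gap p.1 p.2) P) {j k : ℤ} (hjk : j ≠ k) (n m : ℕ) :
    ∀ᵐ ω ∂P, arr (fun i => gap j i ω) n ≠ arr (fun i => gap k i ω) m := by
  classical
  set S : Finset (ℤ × ℕ) := {(j, n)} with hS
  set T : Finset (ℤ × ℕ) := ((Finset.range n).image fun i => (j, i)) ∪
    (Finset.range (m + 1)).image fun i => (k, i) with hT
  have hST : Disjoint S T := by
    rw [hS, Finset.disjoint_singleton_left, hT, Finset.mem_union, Finset.mem_image, Finset.mem_image]
    rintro (⟨i, hi, h⟩ | ⟨i, hi, h⟩)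
    · simp only [Prod.mk.injEq, true_and] at h
      rw [h] at hi
      simp at hi
    · simp only [Prod.mk.injEq] at h
      exact hjk h.1.symm
  have hj : ∀ i ∈ Finset.range n, (j, i) ∈ T := fun i hi =>
    Finset.mem_union_left _ (Finset.mem_image_of_mem _ hi)
  have hk : ∀ i ∈ Finset.range (m + 1), (k, i) ∈ T := fun i hi =>
    Finset.mem_union_right _ (Finset.mem_image_of_mem _ hi)
  have hind := hi.indepFun_finset S T hST fun p => hm p.1 p.2
  set φ : (S → ℝ) → ℝ := fun v => v ⟨(j, n), Finset.mem_singleton_self _⟩ with hφ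
  set ψ : (T → ℝ) → ℝ := fun v => ∑ i ∈ (Finset.range (m + 1)).attach, v ⟨(k, i.1), hk i.1 i.2⟩ -
    ∑ i ∈ (Finset.range n).attach, v ⟨(j, i.1), hj i.1 i.2⟩ with hψ
  have hφm : Measurable φ := measurable_pi_apply _
  have hψm : Measurable ψ :=
    (Finset.measurable_sum _ fun i _ => measurable_pi_apply (⟨(k, i.1), hk i.1 i.2⟩ : T)).sub
      (Finset.measurable_sum _ fun i _ => measurable_pi_apply (⟨(j, i.1), hj i.1 i.2⟩ : T))
  have hind2 : IndepFun (gap j n)
      (fun ω => ∑ i ∈ Finset.range (m + 1), gap k i ω - ∑ i ∈ Finset.range n, gap j i ω) P := by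
    have h1 := hind.comp hφm hψm
    have e1 : (φ ∘ fun a (i : S) => gap (i : ℤ × ℕ).1 (i : ℤ × ℕ).2 a) = gap j n := by
      funext ω
      rfl
    have e2 : (ψ ∘ fun a (i : T) => gap (i : ℤ × ℕ).1 (i : ℤ × ℕ).2 a) =
        fun ω => ∑ i ∈ Finset.range (m + 1), gap k i ω - ∑ i ∈ Finset.range n, gap j i ω := by
      funext ω
      simp only [hψ, Function.comp]
      rw [Finset.sum_attach (Finset.range (m + 1)) (fun i => gap k i ω),
        Finset.sum_attach (Finset.range n) (fun i => gap j i ω)]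
    rw [e1, e2] at h1
    exact h1
  set Z : Ω → ℝ := fun ω => ∑ i ∈ Finset.range (m + 1), gap k i ω - ∑ i ∈ Finset.range n, gap j i ω
    with hZ
  have hZm : Measurable Z := (Finset.measurable_sum _ fun i _ => hm k i).sub
    (Finset.measurable_sum _ fun i _ => hm j i)
  have hprod := hind2.map_prod_eq_prod_map_map (hm j n).aemeasurable hZm.aemeasurable
  have hPZ : IsProbabilityMeasure (P.map Z) := Measure.isProbabilityMeasure_map hZm.aemeasurable
  have hPX : IsProbabilityMeasure (P.map (gap j n)) :=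
    Measure.isProbabilityMeasure_map (hm j n).aemeasurable
  have hdiag : P {ω | gap j n ω = Z ω} = 0 := by
    have h1 : {ω | gap j n ω = Z ω} = (fun ω => (gap j n ω, Z ω)) ⁻¹' diagonal ℝ := rfl
    rw [h1, ← Measure.map_apply ((hm j n).prodMk hZm) measurableSet_diagonal, hprod,
      Measure.prod_apply_symm measurableSet_diagonal]
    have h2 : ∀ y : ℝ, (P.map (gap j n)) ((fun x => (x, y)) ⁻¹' diagonal ℝ) = 0 := by
      intro y
      have h3 : (fun x : ℝ => (x, y)) ⁻¹' diagonal ℝ = {y} := by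
        ext x
        simp [mem_diagonal_iff]
      rw [h3, hl]
      exact exp_singleton y
    simp only [h2, lintegral_zero]
  rw [ae_iff]
  refine measure_mono_null ?_ hdiag
  intro ω hω
  have h1 : arr (fun i => gap j i ω) n = arr (fun i => gap k i ω) m := by
    by_contra h
    exact hω h
  unfold arr at h1
  rw [Finset.sum_range_succ] at h1
  show gap j n ω = ∑ i ∈ Finset.range (m + 1), gap k i ω - ∑ i ∈ Finset.range n, gap j i ω
  linarith

theorem goodAE (P : Measure Ω) [IsProbabilityMeasure P] (gap : ℤ → ℕ → Ω → ℝ)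
    (hm : ∀ k n, Measurable (gap k n)) (hl : ∀ k n, P.map (gap k n) = expMeasure 1)
    (hi : iIndepFun (fun p : ℤ × ℕ => gap p.1 p.2) P) :
    ∀ᵐ ω ∂P, GoodClocks (fun k n => gap k n ω) := by
  -- positive
  have hpos : ∀ᵐ ω ∂P, ∀ k n, 0 < gap k n ω := by
    rw [ae_all_iff]
    intro k
    rw [ae_all_iff]
    intro n
    rw [ae_iff]
    have h1 : {ω | ¬ 0 < gap k n ω} = gap k n ⁻¹' Iic 0 := by
      ext ω
      simp
    rw [h1, ← Measure.map_apply (hm k n) measurableSet_Iic, hl]
    exact exp_Iic_zero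
  -- Borel-Cantelli along sequences
  have hbc : ∀ e : ℕ → ℤ × ℕ, Function.Injective e → ∀ᵐ ω ∂P, ∀ N : ℕ,
      ∃ᶠ i in atTop, (N : ℝ) < gap (e i).1 (e i).2 ω := by
    intro e he
    rw [ae_all_iff]
    intro N
    exact bc (fun i => gap (e i).1 (e i).2) (fun i => hm _ _) (fun i => hl _ _) (hi.precomp he) N
  have hunb : ∀ᵐ ω ∂P, ∀ k : ℤ, ∀ N : ℕ, ∃ᶠ i in atTop, (N : ℝ) < gap k i ω := by
    rw [ae_all_iff]
    intro k
    exact hbc (fun i => (k, i)) fun i j h => (Prod.mk.inj h).2
  have hR : ∀ᵐ ω ∂P, ∀ m : ℤ, ∀ N : ℕ, ∃ᶠ i : ℕ in atTop, (N : ℝ) < gap (m + i) 0 ω := by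
    rw [ae_all_iff]
    intro m
    refine hbc (fun i => (m + i, 0)) fun i j h => ?_
    have := (Prod.mk.inj h).1
    omega
  have hL : ∀ᵐ ω ∂P, ∀ m : ℤ, ∀ N : ℕ, ∃ᶠ i : ℕ in atTop, (N : ℝ) < gap (m - i) 0 ω := by
    rw [ae_all_iff]
    intro m
    refine hbc (fun i => (m - i, 0)) fun i j h => ?_
    have := (Prod.mk.inj h).1
    omega
  have hdis : ∀ᵐ ω ∂P, ∀ j k : ℤ, j ≠ k → ∀ n m : ℕ,
      arr (fun i => gap j i ω) n ≠ arr (fun i => gap k i ω) m := by
    rw [ae_all_iff]
    intro j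
    rw [ae_all_iff]
    intro k
    by_cases hjk : j = k
    · exact Eventually.of_forall fun ω h => absurd hjk h
    · have : ∀ᵐ ω ∂P, ∀ n m : ℕ, arr (fun i => gap j i ω) n ≠ arr (fun i => gap k i ω) m := by
        rw [ae_all_iff]
        intro n
        rw [ae_all_iff]
        intro m
        exact ne_ae gap hm hl hi hjk n m
      filter_upwards [this] with ω hω _ using hω
  filter_upwards [hpos, hunb, hR, hL, hdis] with ω h1 h2 h3 h4 h5
  refine ⟨h1, ?_, ?_, ?_, ?_⟩
  · -- unbounded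
    intro k t
    have key : ∀ N : ℕ, ∃ n, (N : ℝ) < arr (fun i => gap k i ω) n := by
      intro N
      obtain ⟨i, hi⟩ := (h2 k N).exists
      refine ⟨i, hi.trans_le ?_⟩
      unfold arr
      exact Finset.single_le_sum (f := fun i => gap k i ω) (fun j _ => (h1 k j).le)
        (Finset.self_mem_range_succ i)
    obtain ⟨N, hN⟩ := exists_nat_gt t
    obtain ⟨n, hn⟩ := key N
    exact ⟨n, hN.trans hn⟩
  · intro j k hjk
    rw [Set.disjoint_left]
    rintro _ ⟨n, rfl⟩ ⟨m, hm'⟩
    exact h5 j k hjk n m hm'.symm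
  · intro t m
    obtain ⟨N, hN⟩ := exists_nat_gt t
    obtain ⟨i, hi⟩ := (h3 m N).exists
    exact ⟨m + i, by omega, hN.trans hi⟩
  · intro t m
    obtain ⟨N, hN⟩ := exists_nat_gt t
    obtain ⟨i, hi⟩ := (h4 m N).exists
    exact ⟨m - i, by omega, hN.trans hi⟩

end

theorem as : StAS := fun P _ gap hm hl hi => goodAE P gap hm hl hi

end Pool.Agent.Y496.ST
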